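import Mathlib

/-!
# Pseudocompactness via projections to countable faces, and enumerations of length continuum
-/

set_option autoImplicit false

open Set Topology Filter Cardinal

namespace Pool.Agent.V11281.Psc

universe u v

/-- pseudocompactness: continuous real functions are bounded -/
def Pseudocompact (X : Type u) [TopologicalSpace X] : Prop :=
  ∀ f : X → ℝ, Continuous f → ∃ M, ∀ x, |f x| ≤ M

/-- every sequence of nonempty open sets has a subsequence converging to a point -/
def SeqFeebly (X : Type u) [TopologicalSpace X] : Prop :=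
  ∀ O : ℕ → Set X, (∀ n, IsOpen (O n)) → (∀ n, (O n).Nonempty) →
    ∃ φ : ℕ → ℕ, StrictMono φ ∧ ∃ x, ∀ N ∈ 𝓝 x, ∀ᶠ k in atTop, (N ∩ O (φ k)).Nonempty

/-- spaces mapping onto countable faces of a power of a compact metrizable space -/
theorem seqFeebly_of_faces {X W K : Type*} [TopologicalSpace X] [TopologicalSpace K]
    [CompactSpace K] [SecondCountableTopology K] [T2Space K] {J : X → (W → K)} (hJ : IsInducing J)
    (hsurj : ∀ A : Set W, A.Countable → ∀ t : W → K, ∃ x, ∀ w ∈ A, J x w = t w) :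
    SeqFeebly X := by
  classical
  intro O hO hne
  choose b hb using hne
  -- basic neighbourhoods
  have hbasic : ∀ (x : X) (U : Set X), U ∈ 𝓝 x → ∃ (F : Set W) (u : W → Set K), F.Finite ∧
      (∀ w, u w ∈ 𝓝 (J x w)) ∧ ∀ y, (∀ w ∈ F, J y w ∈ u w) → y ∈ U := by
    intro x U hU
    rw [hJ.nhds_eq_comap, Filter.mem_comap] at hU
    obtain ⟨V, hV, hVU⟩ := hU
    rw [nhds_pi, Filter.mem_pi] at hV
    obtain ⟨F, hF, u, hu, huV⟩ := hV
    exact ⟨F, u, hF, hu, fun y hy => hVU (huV hy)⟩
  choose F u hF hu huO using fun n => hbasic (b n) (O n) ((hO n).mem_nhds (hb n))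
  set A : Set W := ⋃ n, F n with hA
  have hAc : A.Countable := countable_iUnion fun n => (hF n).countable
  have : Countable A := hAc.to_subtype
  -- a convergent subsequence on the countable face
  obtain ⟨z, -, φ, hφ, hz⟩ := (isCompact_univ (X := A → K)).tendsto_subseq
    (x := fun n (w : A) => J (b n) w) (fun n => mem_univ _)
  obtain ⟨x, hx⟩ := hsurj A hAc (fun w => if h : w ∈ A then z ⟨w, h⟩ else J (b 0) w)
  refine ⟨φ, hφ, x, fun N hN => ?_⟩
  obtain ⟨F', v, hF', hv, hvN⟩ := hbasic x N hN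
  -- for large `k` the coordinates in `F' ∩ A` are good
  have hev : ∀ᶠ k in atTop, ∀ w ∈ F', w ∈ A → J (b (φ k)) w ∈ v w := by
    rw [Filter.eventually_all_finite hF']
    intro w hw
    by_cases hwA : w ∈ A
    · have h1 : Tendsto (fun k => J (b (φ k)) w) atTop (𝓝 (z ⟨w, hwA⟩)) :=
        (tendsto_pi_nhds.1 hz) ⟨w, hwA⟩
      have h2 : z ⟨w, hwA⟩ = J x w := by
        rw [hx w hwA, dif_pos hwA]
      rw [h2] at h1
      filter_upwards [h1 (hv w)] with k hk _
      exact hk
    · exact Eventually.of_forall fun k h => absurd h hwA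
  filter_upwards [hev] with k hk
  obtain ⟨y, hy⟩ := hsurj (F (φ k) ∪ F') ((hF _).countable.union hF'.countable)
    (fun w => if w ∈ A then J (b (φ k)) w else J x w)
  refine ⟨y, hvN y fun w hw => ?_, huO (φ k) y fun w hw => ?_⟩
  · rw [hy w (Or.inr hw)]
    by_cases hwA : w ∈ A
    · rw [if_pos hwA]
      exact hk w hw hwA
    · rw [if_neg hwA]
      exact mem_of_mem_nhds (hv w)
  · have hwA : w ∈ A := mem_iUnion.2 ⟨_, hw⟩
    rw [hy w (Or.inl hw), if_pos hwA]
    exact mem_of_mem_nhds (hu (φ k) w)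

/-- the standard argument: cluster points of open sets give bounds -/
theorem pseudocompact_of_cluster {X : Type u} [TopologicalSpace X]
    (h : ∀ O : ℕ → Set X, (∀ n, IsOpen (O n)) → (∀ n, (O n).Nonempty) →
      ∃ x, ∀ N ∈ 𝓝 x, ∃ᶠ k in atTop, (N ∩ O k).Nonempty) : Pseudocompact X := by
  intro f hf
  by_contra hcon
  push Not at hcon
  obtain ⟨x, hx⟩ := h (fun n => {y | (n : ℝ) < |f y|})
    (fun n => isOpen_lt continuous_const hf.abs) (fun n => hcon n)
  have h1 : {y | |f y| < |f x| + 1} ∈ 𝓝 x :=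
    (isOpen_lt hf.abs continuous_const).mem_nhds (by simp)
  obtain ⟨m, hm⟩ := exists_nat_gt (|f x| + 1)
  obtain ⟨k, hk, y, hy1, hy2⟩ := (frequently_atTop.1 (hx _ h1)) m
  have h2 : (m : ℝ) ≤ k := by exact_mod_cast hk
  have h3 : |f y| < |f x| + 1 := hy1
  have h4 : (k : ℝ) < |f y| := hy2
  linarith

theorem SeqFeebly.cluster {X : Type u} [TopologicalSpace X] (h : SeqFeebly X)
    (O : ℕ → Set X) (hO : ∀ n, IsOpen (O n)) (hne : ∀ n, (O n).Nonempty) :
    ∃ x, ∀ N ∈ 𝓝 x, ∃ᶠ k in atTop, (N ∩ O k).Nonempty := by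
  obtain ⟨φ, hφ, x, hx⟩ := h O hO hne
  exact ⟨x, fun N hN => hφ.tendsto_atTop.frequently (hx N hN).frequently⟩

theorem SeqFeebly.pseudocompact {X : Type u} [TopologicalSpace X] (h : SeqFeebly X) :
    Pseudocompact X := pseudocompact_of_cluster h.cluster

/-- the index set -/
abbrev W : Type := (Cardinal.continuum.{0}).ord.ToType

lemma mk_W : #W = Cardinal.continuum := Cardinal.mk_ord_toType _

lemma mk_Iio_W (w : W) : #(Iio w) < Cardinal.continuum := by simpa using Cardinal.mk_Iio_lt w

lemma mk_Iic_W (w : W) : #(Iic w) < Cardinal.continuum := by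
  have h : Iic w = Iio w ∪ {w} := by
    ext x; simp [le_iff_lt_or_eq]
  rw [h]
  refine lt_of_le_of_lt (Cardinal.mk_union_le _ _) ?_
  refine Cardinal.add_lt_of_lt Cardinal.aleph0_le_continuum (mk_Iio_W w) ?_
  rw [Cardinal.mk_singleton]
  exact lt_trans Cardinal.one_lt_aleph0 Cardinal.aleph0_lt_continuum

/-- countable sets are bounded (König) -/
lemma exists_bound {s : Set W} (hs : s.Countable) : ∃ b, ∀ a ∈ s, a < b := by
  by_contra hcon
  push Not at hcon
  have h1 : IsCofinal s := hcon
  have h2 := Order.cof_le h1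
  rw [Ordinal.cof_toType] at h2
  have h3 : ℵ₀ < (Cardinal.continuum.{0}).ord.cof := by
    rw [← Cardinal.two_power_aleph0]
    exact Cardinal.lt_cof_power le_rfl Cardinal.one_lt_two
  exact absurd (h2.trans (Cardinal.le_aleph0_iff_set_countable.2 hs)) (not_le.2 h3)

/-- enumerations in which every element appears cofinally often -/
lemma exists_enum (P : Type) [Nonempty P] (hP : #P ≤ Cardinal.continuum) :
    ∃ e : W → P, ∀ (p : P) (b : W), ∃ w, b < w ∧ e w = p := by
  have h1 : #(W × P) = #W := by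
    rw [Cardinal.mk_prod, Cardinal.lift_id, Cardinal.lift_id, mk_W]
    exact Cardinal.mul_eq_left Cardinal.aleph0_le_continuum hP (Cardinal.mk_ne_zero P)
  obtain ⟨f⟩ := Cardinal.eq.1 h1
  refine ⟨fun w => (f.symm w).2, fun p b => ?_⟩
  by_contra hcon
  push Not at hcon
  have h2 : #W ≤ #(Iic b) := by
    let g : W → Iic b := fun w => ⟨f (w, p), by
      by_contra h
      rw [mem_Iic, not_le] at h
      exact hcon _ h (by simp)⟩
    refine Cardinal.mk_le_of_injective (f := g) fun w w' hww' => ?_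
    have h3 : f (w, p) = f (w', p) := congrArg Subtype.val hww'
    exact congrArg Prod.fst (f.injective h3)
  rw [mk_W] at h2
  exact absurd (mk_Iic_W b) (not_lt.2 h2)

/-- the space of sequences in a set of size at most continuum has size at most continuum -/
lemma mk_seq_le {P : Type} (hP : #P ≤ Cardinal.continuum) : #(ℕ → P) ≤ Cardinal.continuum := by
  rw [← Cardinal.power_def, Cardinal.mk_nat]
  calc #P ^ ℵ₀ ≤ Cardinal.continuum ^ ℵ₀ := Cardinal.power_le_power_right hP
    _ = Cardinal.continuum := Cardinal.continuum_power_aleph0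

end Pool.Agent.V11281.Psc
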