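import Pool.Agent.V11281.Psc.Cluster

/-!
# A pseudocompact Boolean group of size continuum in which countable subgroups are `h`-embedded
-/

set_option autoImplicit false

open Set Topology Filter Cardinal

namespace Pool.Agent.V11281.Psc

/-- the underlying group -/
def BG : Type := W →₀ ZMod 2

noncomputable instance : AddCommGroup BG := inferInstanceAs (AddCommGroup (W →₀ ZMod 2))

noncomputable instance : Module (ZMod 2) BG := inferInstanceAs (Module (ZMod 2) (W →₀ ZMod 2))

instance : Infinite W := by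
  rw [Cardinal.infinite_iff, mk_W]
  exact Cardinal.aleph0_le_continuum

instance : Nonempty W := inferInstance

lemma mk_BG : #BG = Cardinal.continuum := by
  change #(W →₀ ZMod 2) = _
  rw [Cardinal.mk_finsupp_of_infinite, mk_W]
  apply max_eq_left
  exact (Cardinal.mk_le_aleph0).trans Cardinal.aleph0_le_continuum

/-- the list of partial homomorphisms -/
lemma exists_enumHom : ∃ e : W → ((ℕ → BG) × (ℕ → ZMod 2)),
    ∀ (p : (ℕ → BG) × (ℕ → ZMod 2)) (b : W), ∃ w, b < w ∧ e w = p := by
  apply exists_enum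
  rw [Cardinal.mk_prod, Cardinal.lift_id, Cardinal.lift_id]
  refine Cardinal.mul_le_of_le Cardinal.aleph0_le_continuum (mk_seq_le mk_BG.le) (mk_seq_le ?_)
  exact (Cardinal.mk_le_aleph0).trans Cardinal.aleph0_le_continuum

/-- the list of targets -/
lemma exists_enumTar : ∃ e : W → ((ℕ → W) × (ℕ → ZMod 2)),
    ∀ (p : (ℕ → W) × (ℕ → ZMod 2)) (b : W), ∃ w, b < w ∧ e w = p := by
  apply exists_enum
  rw [Cardinal.mk_prod, Cardinal.lift_id, Cardinal.lift_id]
  refine Cardinal.mul_le_of_le Cardinal.aleph0_le_continuum (mk_seq_le mk_W.le) (mk_seq_le ?_)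
  exact (Cardinal.mk_le_aleph0).trans Cardinal.aleph0_le_continuum

open Classical in
/-- the functional with number `w` -/
noncomputable def psi (w : W) : BG →ₗ[ZMod 2] ZMod 2 :=
  if h : ∃ Ψ : BG →ₗ[ZMod 2] ZMod 2, ∀ n, Ψ ((exists_enumHom.choose w).1 n) =
    (exists_enumHom.choose w).2 n then h.choose else 0

open Classical in
/-- the target function with number `b` -/
noncomputable def tar (b w : W) : ZMod 2 :=
  if h : ∃ n, (exists_enumTar.choose b).1 n = w then (exists_enumTar.choose b).2 h.choose else 0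

/-- unit vectors -/
noncomputable def eb (b : W) : BG := (Finsupp.single b 1 : W →₀ ZMod 2)

open Classical in
/-- the matrix -/
noncomputable def mat (w b : W) : ZMod 2 := if b < w then psi w (eb b) else tar b w

/-- the coordinate functionals -/
noncomputable def Jl (w : W) : BG →ₗ[ZMod 2] ZMod 2 :=
  (Finsupp.linearCombination (ZMod 2) (fun b => mat w b) : (W →₀ ZMod 2) →ₗ[ZMod 2] ZMod 2)

lemma Jl_eb (w b : W) : Jl w (eb b) = mat w b := by
  change Finsupp.linearCombination (ZMod 2) (fun b => mat w b) (Finsupp.single b 1) = _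
  rw [Finsupp.linearCombination_single, one_smul]

/-- the support -/
noncomputable def bsupp (x : BG) : Finset W := Finsupp.support (show W →₀ ZMod 2 from x)

lemma hom_eq_of_supp {f g : BG →ₗ[ZMod 2] ZMod 2} {x : BG} (h : ∀ b ∈ bsupp x, f (eb b) = g (eb b)) :
    f x = g x := by
  have key : ∀ f : BG →ₗ[ZMod 2] ZMod 2, f x =
      ∑ b ∈ bsupp x, (show W →₀ ZMod 2 from x) b * f (eb b) := by
    intro f
    have h1 : x = ∑ b ∈ bsupp x, (show W →₀ ZMod 2 from x) b • eb b := by
      have := Finsupp.sum_single (show W →₀ ZMod 2 from x)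
      rw [Finsupp.sum] at this
      conv_lhs => rw [show x = (show W →₀ ZMod 2 from x) from rfl, ← this]
      refine Finset.sum_congr rfl fun b _ => ?_
      change _ = (show W →₀ ZMod 2 from x) b • (Finsupp.single b (1 : ZMod 2))
      rw [Finsupp.smul_single, smul_eq_mul, mul_one]
    conv_lhs => rw [h1]
    rw [map_sum]
    refine Finset.sum_congr rfl fun b _ => ?_
    rw [map_smul, smul_eq_mul]
  rw [key f, key g]
  exact Finset.sum_congr rfl fun b hb => by rw [h b hb]

/-- **Property (1).** Restrictions of linear functionals to sequences are realised. -/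
theorem exists_index (x : ℕ → BG) (Ψ : BG →ₗ[ZMod 2] ZMod 2) : ∃ w, ∀ n, Jl w (x n) = Ψ (x n) := by
  obtain ⟨b, hb⟩ := exists_bound (s := ⋃ n, (bsupp (x n) : Set W))
    (countable_iUnion fun n => (bsupp (x n)).countable_toSet)
  obtain ⟨w, hbw, hw⟩ := exists_enumHom.choose_spec (x, fun n => Ψ (x n)) b
  refine ⟨w, fun n => ?_⟩
  have h1 : psi w (x n) = Ψ (x n) := by
    have hex : ∃ Ψ : BG →ₗ[ZMod 2] ZMod 2, ∀ n, Ψ ((exists_enumHom.choose w).1 n) =
        (exists_enumHom.choose w).2 n := ⟨Ψ, fun n => by rw [hw]⟩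
    have h2 := hex.choose_spec n
    unfold psi
    rw [dif_pos hex]
    generalize hex.choose = Φ at h2 ⊢
    rw [hw] at h2
    exact h2
  rw [← h1]
  apply hom_eq_of_supp
  intro c hc
  rw [Jl_eb]
  unfold mat
  rw [if_pos ((hb c (mem_iUnion.2 ⟨n, hc⟩)).trans hbw)]

/-- **Property (2).** The group maps onto countable faces. -/
theorem exists_point (A : Set W) (hA : A.Countable) (t : W → ZMod 2) :
    ∃ x : BG, ∀ w ∈ A, Jl w x = t w := by
  rcases A.eq_empty_or_nonempty with rfl | hne
  · exact ⟨0, by simp⟩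
  obtain ⟨a, ha⟩ := hA.exists_eq_range hne
  obtain ⟨b, hb⟩ := exists_bound hA
  obtain ⟨c, hbc, hc⟩ := exists_enumTar.choose_spec (a, fun n => t (a n)) b
  refine ⟨eb c, fun w hw => ?_⟩
  rw [Jl_eb]
  unfold mat
  rw [if_neg (not_lt.2 ((hb w hw).trans hbc).le)]
  have hex : ∃ n, (exists_enumTar.choose c).1 n = w := by
    rw [hc]
    rw [ha] at hw
    exact hw
  unfold tar
  rw [dif_pos hex]
  have h1 := hex.choose_spec
  generalize hex.choose = m at h1 ⊢
  have h2 : (exists_enumTar.choose c).2 m = t ((exists_enumTar.choose c).1 m) := by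
    rw [hc]
  rw [h2, h1]

/-- the embedding -/
noncomputable def JB : BG →+ (W → ZMod 2) where
  toFun x w := Jl w x
  map_zero' := by funext w; exact map_zero _
  map_add' x y := by funext w; exact map_add _ _ _

noncomputable instance : TopologicalSpace BG := TopologicalSpace.induced JB inferInstance

instance : IsTopologicalAddGroup BG := topologicalAddGroup_induced JB

lemma isInducing_JB : IsInducing JB := ⟨rfl⟩

lemma JB_injective : Function.Injective JB := by
  rw [injective_iff_map_eq_zero]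
  intro x hx
  by_contra hne
  obtain ⟨Ψ, hΨ⟩ : ∃ Ψ : BG →ₗ[ZMod 2] ZMod 2, Ψ x ≠ 0 := by
    have hex : ∃ b, (show W →₀ ZMod 2 from x) b ≠ 0 := by
      by_contra hcon
      push Not at hcon
      exact hne (Finsupp.ext hcon : (show W →₀ ZMod 2 from x) = 0)
    obtain ⟨b, hb⟩ := hex
    exact ⟨(Finsupp.lapply b : (W →₀ ZMod 2) →ₗ[ZMod 2] ZMod 2), hb⟩
  obtain ⟨w, hw⟩ := exists_index (fun _ => x) Ψ
  apply hΨ
  rw [← hw 0]
  exact congrFun hx w

instance : T2Space BG := (IsEmbedding.mk isInducing_JB JB_injective).t2Space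

lemma seqFeebly_BG : SeqFeebly BG := seqFeebly_of_faces isInducing_JB exists_point

/-- selective pseudocompactness -/
def SelPseudocompact (X : Type*) [TopologicalSpace X] : Prop :=
  ∀ U : ℕ → Set X, (∀ n, IsOpen (U n)) → (∀ n, (U n).Nonempty) →
    ∃ x : ℕ → X, (∀ n, x n ∈ U n) ∧ ∃ y, ∀ N ∈ 𝓝 y, ∃ᶠ n in atTop, x n ∈ N

/-- functionals separating sequences from points -/
lemma exists_sep {x : ℕ → BG} (hx : LinearIndependent (ZMod 2) x) (y : BG) :
    ∃ (Ψ : BG →ₗ[ZMod 2] ZMod 2) (N : ℕ), Ψ y = 0 ∧ ∀ n, N ≤ n → Ψ (x n) = 1 := by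
  -- functionals with prescribed values on the sequence
  have hpres : ∀ c : ℕ → ZMod 2, ∃ Ψ : BG →ₗ[ZMod 2] ZMod 2, ∀ n, Ψ (x n) = c n := by
    intro c
    let f : Submodule.span (ZMod 2) (range x) →ₗ[ZMod 2] ZMod 2 :=
      (Finsupp.linearCombination (ZMod 2) c).comp hx.repr
    obtain ⟨Ψ, hΨ⟩ := LinearMap.exists_extend f
    refine ⟨Ψ, fun n => ?_⟩
    have h1 : Ψ (x n) = f ⟨x n, Submodule.subset_span ⟨n, rfl⟩⟩ :=
      LinearMap.congr_fun hΨ ⟨x n, Submodule.subset_span ⟨n, rfl⟩⟩
    rw [h1]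
    change Finsupp.linearCombination (ZMod 2) c (hx.repr ⟨x n, _⟩) = _
    rw [hx.repr_eq_single n _ rfl, Finsupp.linearCombination_single, one_smul]
  by_cases hy : y ∈ Submodule.span (ZMod 2) (range x)
  · -- `y` is in the span of finitely many members
    obtain ⟨c, hc⟩ := (Finsupp.mem_span_range_iff_exists_finsupp).1 hy
    classical
    obtain ⟨Ψ, hΨ⟩ := hpres (fun n => if n ∈ c.support then 0 else 1)
    refine ⟨Ψ, c.support.sup id + 1, ?_, fun n hn => ?_⟩
    · rw [← hc, Finsupp.sum, map_sum]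
      refine Finset.sum_eq_zero fun n hn => ?_
      rw [map_smul, hΨ, if_pos hn, smul_zero]
    · rw [hΨ, if_neg]
      intro hmem
      have := Finset.le_sup (f := id) hmem
      simp only [id] at this
      omega
  · obtain ⟨Ψ, hΨ⟩ := hpres fun _ => 1
    obtain ⟨θ, hθ, hθy⟩ := Submodule.exists_le_ker_of_notMem hy
    refine ⟨Ψ - (Ψ y / θ y) • θ, 0, ?_, fun n _ => ?_⟩
    · rw [LinearMap.sub_apply, LinearMap.smul_apply, smul_eq_mul, div_mul_cancel₀ _ hθ, sub_self]
    · have h1 : θ (x n) = 0 := hθy (Submodule.subset_span ⟨n, rfl⟩)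
      rw [LinearMap.sub_apply, LinearMap.smul_apply, h1, smul_zero, sub_zero, hΨ]

/-- the group is not selectively pseudocompact -/
theorem not_selPseudocompact_BG : ¬ SelPseudocompact BG := by
  intro h
  let ξ : ℕ ↪ W := Infinite.natEmbedding W
  let U : ℕ → Set BG := fun n => {x | Jl (ξ n) x = 1 ∧ ∀ m < n, Jl (ξ m) x = 0}
  have hcont : ∀ w, Continuous fun x : BG => Jl w x := fun w =>
    (continuous_apply w).comp isInducing_JB.continuous
  have hU : ∀ n, IsOpen (U n) := by
    intro n
    have h1 : U n = (fun x => Jl (ξ n) x) ⁻¹' {1} ∩ ⋂ m ∈ Iio n, (fun x => Jl (ξ m) x) ⁻¹' {0} := by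
      ext x
      simp [U]
    rw [h1]
    refine ((isOpen_discrete _).preimage (hcont _)).inter ?_
    exact (finite_Iio n).isOpen_biInter fun m _ => (isOpen_discrete _).preimage (hcont _)
  have hne : ∀ n, (U n).Nonempty := by
    intro n
    classical
    obtain ⟨x, hx⟩ := exists_point (range ξ) (countable_range _) (fun w => if w = ξ n then 1 else 0)
    refine ⟨x, ?_, fun m hm => ?_⟩
    · rw [hx _ ⟨n, rfl⟩, if_pos rfl]
    · rw [hx _ ⟨m, rfl⟩, if_neg]
      intro heq
      have := ξ.injective heq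
      omega
  obtain ⟨x, hxU, y, hy⟩ := h U hU hne
  have hli : LinearIndependent (ZMod 2) x := by
    rw [linearIndependent_iff']
    intro s g hg i
    induction i using Nat.strong_induction_on with
    | _ i ih =>
      intro hi
      have h1 : Jl (ξ i) (∑ j ∈ s, g j • x j) = 0 := by rw [hg, map_zero]
      rw [map_sum, Finset.sum_eq_single i] at h1
      · rw [map_smul, (hxU i).1, smul_eq_mul, mul_one] at h1
        exact h1
      · intro j hj hji
        rw [map_smul]
        rcases lt_or_gt_of_ne hji with hlt | hgt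
        · rw [ih j hlt hj, zero_smul]
        · rw [(hxU j).2 i hgt, smul_zero]
      · intro h2
        exact absurd hi h2
  obtain ⟨Ψ, N, hΨy, hΨx⟩ := exists_sep hli y
  obtain ⟨w, hw⟩ := exists_index (fun n => Nat.casesOn n y x) Ψ
  have hwy : Jl w y = 0 := by
    rw [← hΨy]
    exact hw 0
  have hwx : ∀ n, N ≤ n → Jl w (x n) = 1 := fun n hn => by
    rw [← hΨx n hn]
    exact hw (n + 1)
  have hN : (fun x : BG => Jl w x) ⁻¹' {0} ∈ 𝓝 y :=
    ((isOpen_discrete _).preimage (hcont w)).mem_nhds hwy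
  obtain ⟨n, hn, hxn⟩ := (frequently_atTop.1 (hy _ hN)) N
  rw [mem_preimage, hwx n hn, mem_singleton_iff] at hxn
  exact one_ne_zero hxn

end Pool.Agent.V11281.Psc
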