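import Pool.Agent.V11281.Psc.Basic

/-!
# Pseudocompact spaces: cluster points, products, cardinality
-/

set_option autoImplicit false

open Set Topology Filter Cardinal

namespace Pool.Agent.V11281.Psc

universe u v

/-- in pseudocompact completely regular spaces sequences of open sets have cluster points -/
theorem Pseudocompact.cluster {X : Type u} [TopologicalSpace X] [CompletelyRegularSpace X]
    (h : Pseudocompact X) (O : ℕ → Set X) (hO : ∀ n, IsOpen (O n)) (hne : ∀ n, (O n).Nonempty) :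
    ∃ x, ∀ N ∈ 𝓝 x, ∃ᶠ k in atTop, (N ∩ O k).Nonempty := by
  by_contra hcon
  push Not at hcon
  have hlf : LocallyFinite O := by
    intro x
    obtain ⟨N, hN, hNO⟩ := hcon x
    refine ⟨N, hN, ?_⟩
    obtain ⟨m, hm⟩ := eventually_atTop.1 hNO
    refine (finite_Iio m).subset fun k hk => ?_
    rw [mem_Iio]
    by_contra hmk
    push Not at hmk
    have h1 := hm k hmk
    rw [inter_comm] at h1
    exact (nonempty_iff_ne_empty.1 hk) h1
  choose p hp using hne
  have hf : ∀ n, ∃ f : X → ℝ, Continuous f ∧ f (p n) = 1 ∧ (∀ x, 0 ≤ f x) ∧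
      ∀ x ∉ O n, f x = 0 := by
    intro n
    obtain ⟨f, hfc, hfp, hf1⟩ := CompletelyRegularSpace.completely_regular (p n) (O n)ᶜ
      (hO n).isClosed_compl (fun h => h (hp n))
    refine ⟨fun x => 1 - (f x : ℝ), continuous_const.sub (continuous_subtype_val.comp hfc), ?_, ?_,
      ?_⟩
    · simp [hfp]
    · intro x
      have := (f x).2.2
      linarith
    · intro x hx
      have : f x = 1 := hf1 hx
      simp [this]
  choose f hfc hfp hf0 hfO using hf
  have hsupp : LocallyFinite fun n : ℕ => Function.support fun x => (n : ℝ) * f n x := by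
    refine hlf.subset fun n x hx => ?_
    by_contra hxO
    apply hx
    change (n : ℝ) * f n x = 0
    rw [hfO n x hxO, mul_zero]
  obtain ⟨M, hM⟩ := h (fun x => ∑ᶠ n : ℕ, (n : ℝ) * f n x)
    (continuous_finsum (fun n => continuous_const.mul (hfc n)) hsupp)
  obtain ⟨m, hm⟩ := exists_nat_gt M
  have h1 : (m : ℝ) ≤ ∑ᶠ n : ℕ, (n : ℝ) * f n (p m) := by
    have h2 : (m : ℝ) * f m (p m) ≤ ∑ᶠ n : ℕ, (n : ℝ) * f n (p m) := by
      refine single_le_finsum m (hsupp.point_finite (p m)) fun n => ?_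
      exact mul_nonneg (Nat.cast_nonneg _) (hf0 n _)
    rwa [hfp, mul_one] at h2
  have h2 := hM (p m)
  have h3 := le_abs_self (∑ᶠ n : ℕ, (n : ℝ) * f n (p m))
  linarith

/-- the product of a space with cluster points of open sets and a sequentially feebly compact
space is pseudocompact -/
theorem pseudocompact_prod {X : Type u} {Y : Type v} [TopologicalSpace X] [TopologicalSpace Y]
    (hX : ∀ O : ℕ → Set X, (∀ n, IsOpen (O n)) → (∀ n, (O n).Nonempty) →
      ∃ x, ∀ N ∈ 𝓝 x, ∃ᶠ k in atTop, (N ∩ O k).Nonempty) (hY : SeqFeebly Y) :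
    Pseudocompact (X × Y) := by
  apply pseudocompact_of_cluster
  intro O hO hne
  choose p hp using hne
  have hbox : ∀ n, ∃ (A : Set X) (B : Set Y), IsOpen A ∧ IsOpen B ∧ (p n).1 ∈ A ∧ (p n).2 ∈ B ∧
      A ×ˢ B ⊆ O n := fun n => isOpen_prod_iff.1 (hO n) _ _ (hp n)
  choose A B hA hB hpA hpB hAB using hbox
  obtain ⟨φ, hφ, y, hy⟩ := hY B hB fun n => ⟨_, hpB n⟩
  obtain ⟨x, hx⟩ := hX (fun k => A (φ k)) (fun k => hA _) fun k => ⟨_, hpA _⟩
  refine ⟨(x, y), fun N hN => ?_⟩
  rw [nhds_prod_eq] at hN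
  obtain ⟨N1, hN1, N2, hN2, hN12⟩ := Filter.mem_prod_iff.1 hN
  refine hφ.tendsto_atTop.frequently (((hx N1 hN1).and_eventually (hy N2 hN2)).mono ?_)
  rintro k ⟨⟨a, ha1, ha2⟩, ⟨b, hb1, hb2⟩⟩
  exact ⟨(a, b), hN12 ⟨ha1, hb1⟩, hAB _ ⟨ha2, hb2⟩⟩

section card

variable {X : Type u} [TopologicalSpace X] [T2Space X] [RegularSpace X]

/-- splitting of open sets -/
lemma exists_split (hX : ∀ x : X, ¬ IsOpen ({x} : Set X)) {U : Set X} (hU : IsOpen U)
    (hne : U.Nonempty) : ∃ V : Bool → Set X, (∀ b, IsOpen (V b)) ∧ (∀ b, (V b).Nonempty) ∧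
      (∀ b, closure (V b) ⊆ U) ∧ Disjoint (closure (V false)) (closure (V true)) := by
  obtain ⟨x, hx⟩ := hne
  obtain ⟨y, hy, hxy⟩ : ∃ y ∈ U, x ≠ y := by
    by_contra hcon
    push Not at hcon
    apply hX x
    have : U = {x} := by
      ext y
      exact ⟨fun h => (hcon y h).symm, fun h => by rw [mem_singleton_iff.1 h]; exact hx⟩
    rw [← this]
    exact hU
  obtain ⟨A, B, hA, hB, hxA, hyB, hAB⟩ := t2_separation hxy
  obtain ⟨V0, hV0, hV0c⟩ := ((hasBasis_opens_closure x).mem_iff).1
    (Filter.inter_mem (hA.mem_nhds hxA) (hU.mem_nhds hx))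
  obtain ⟨V1, hV1, hV1c⟩ := ((hasBasis_opens_closure y).mem_iff).1
    (Filter.inter_mem (hB.mem_nhds hyB) (hU.mem_nhds hy))
  refine ⟨fun b => if b then V1 else V0, ?_, ?_, ?_, ?_⟩
  · intro b; cases b
    · exact hV0.2
    · exact hV1.2
  · intro b; cases b
    · exact ⟨x, hV0.1⟩
    · exact ⟨y, hV1.1⟩
  · intro b; cases b
    · exact fun z hz => (hV0c hz).2
    · exact fun z hz => (hV1c hz).2
  · refine Set.disjoint_left.2 fun z hz1 hz2 => ?_
    exact Set.disjoint_left.1 hAB (hV0c hz1).1 (hV1c hz2).1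

/-- a space without isolated points in which sequences of open sets have cluster points has at
least continuum many points -/
theorem continuum_le [Nonempty X] (hX : ∀ x : X, ¬ IsOpen ({x} : Set X))
    (hc : ∀ O : ℕ → Set X, (∀ n, IsOpen (O n)) → (∀ n, (O n).Nonempty) →
      ∃ x, ∀ N ∈ 𝓝 x, ∃ᶠ k in atTop, (N ∩ O k).Nonempty) :
    Cardinal.continuum.{u} ≤ #X := by
  have step : ∀ U : {U : Set X // IsOpen U ∧ U.Nonempty}, ∃ V : Bool → {U : Set X // IsOpen U ∧
      U.Nonempty}, (∀ b, closure (V b).1 ⊆ U.1) ∧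
      Disjoint (closure (V false).1) (closure (V true).1) := by
    rintro ⟨U, hU, hne⟩
    obtain ⟨V, h1, h2, h3, h4⟩ := exists_split hX hU hne
    exact ⟨fun b => ⟨V b, h1 b, h2 b⟩, h3, h4⟩
  choose nx hnx1 hnx2 using step
  let T : (ℕ → Bool) → ℕ → {U : Set X // IsOpen U ∧ U.Nonempty} := fun z n =>
    Nat.rec ⟨univ, isOpen_univ, univ_nonempty⟩ (fun k U => nx U (z k)) n
  have hT : ∀ z n, T z (n + 1) = nx (T z n) (z n) := fun z n => rfl
  have hanti : ∀ z, Antitone fun n => (T z n).1 := fun z => antitone_nat_of_succ_le fun n => by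
    rw [hT]
    exact subset_closure.trans (hnx1 _ _)
  choose x hx using fun z : ℕ → Bool => hc (fun n => (T z n).1) (fun n => (T z n).2.1)
    (fun n => (T z n).2.2)
  have hmem : ∀ z n, x z ∈ closure (T z n).1 := by
    intro z n
    rw [mem_closure_iff_nhds]
    intro N hN
    obtain ⟨k, hk, y, hy1, hy2⟩ := (frequently_atTop.1 (hx z N hN)) n
    exact ⟨y, hy1, hanti z hk hy2⟩
  have hinj : Function.Injective x := by
    intro z z' hzz
    by_contra hne
    have hex : ∃ n, z n ≠ z' n := by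
      by_contra hcon
      push Not at hcon
      exact hne (funext hcon)
    classical
    have hmin := Nat.find_spec hex
    set n := Nat.find hex with hn
    have hlt : ∀ m, m < n → z m = z' m := fun m hm => by
      have := Nat.find_min hex hm
      push Not at this
      exact this
    have hTeq : ∀ m, m ≤ n → T z m = T z' m := by
      intro m
      induction m with
      | zero => intro _; rfl
      | succ m ih =>
        intro hm
        rw [hT, hT, ih (by omega), hlt m (by omega)]
    have h1 := hmem z (n + 1)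
    have h2 := hmem z' (n + 1)
    rw [hT] at h1 h2
    rw [hTeq n le_rfl] at h1
    rw [hzz] at h1
    have hd := hnx2 (T z' n)
    rcases Bool.eq_false_or_eq_true (z n) with hz | hz <;>
      rcases Bool.eq_false_or_eq_true (z' n) with hz' | hz'
    · exact hmin (hz.trans hz'.symm)
    · rw [hz] at h1
      rw [hz'] at h2
      exact Set.disjoint_left.1 hd h2 h1
    · rw [hz] at h1
      rw [hz'] at h2
      exact Set.disjoint_left.1 hd h1 h2
    · exact hmin (hz.trans hz'.symm)
  have h1 : Cardinal.lift.{u} #(ℕ → Bool) ≤ Cardinal.lift.{0} #X :=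
    Cardinal.lift_mk_le'.2 ⟨⟨x, hinj⟩⟩
  have h2 : #(ℕ → Bool) = Cardinal.continuum := by
    rw [← Cardinal.two_power_aleph0]; simp only [Cardinal.mk_pi, Cardinal.mk_bool,
      Cardinal.prod_const, Cardinal.mk_nat, Cardinal.lift_aleph0, Cardinal.lift_ofNat]
  rw [h2, Cardinal.lift_continuum, Cardinal.lift_uzero] at h1
  exact h1

end card

/-- an infinite discrete space is not pseudocompact -/
lemma not_pseudocompact_of_discrete {X : Type u} [TopologicalSpace X] [DiscreteTopology X]
    [Infinite X] : ¬ Pseudocompact X := by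
  classical
  intro h
  let i := Infinite.natEmbedding X
  obtain ⟨M, hM⟩ := h (fun x => if hx : ∃ n, i n = x then (hx.choose : ℝ) else 0)
    continuous_of_discreteTopology
  obtain ⟨m, hm⟩ := exists_nat_gt M
  have hex : ∃ n, i n = i m := ⟨m, rfl⟩
  have h1 := hM (i m)
  rw [dif_pos hex, i.injective hex.choose_spec] at h1
  have := le_abs_self (m : ℝ)
  linarith

end Pool.Agent.V11281.Psc
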