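import Pool.Agent.V11281.Psc.Basic

/-!
# A torsion-free group of rank continuum whose only automorphisms are `±1`
-/

set_option autoImplicit false

open Set Topology Filter Cardinal

namespace Pool.Agent.V11281.Psc

/-- rationals whose denominator is not divisible by `p` -/
def Loc (p : ℕ) (hp : p.Prime) : AddSubgroup ℚ where
  carrier := {r | ¬ p ∣ r.den}
  zero_mem' := by
    simp only [mem_ofPred_eq, Rat.den_zero, Nat.dvd_one]
    exact hp.one_lt.ne'
  add_mem' := by
    intro a b ha hb h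
    rcases (hp.dvd_mul).1 (h.trans (Rat.add_den_dvd a b)) with h | h
    · exact ha h
    · exact hb h
  neg_mem' := by
    intro a ha
    simpa using ha

lemma mem_Loc {p : ℕ} (hp : p.Prime) {r : ℚ} : r ∈ Loc p hp ↔ ¬ p ∣ r.den := Iff.rfl

/-- a rational which is divisible by all powers of `p` in the localisation vanishes -/
lemma eq_zero_of_divisible {p : ℕ} (hp : p.Prime) {r : ℚ}
    (h : ∀ n : ℕ, ∃ y ∈ Loc p hp, r = (p : ℚ) ^ n * y) : r = 0 := by
  by_contra hr
  have hnum : r.num ≠ 0 := Rat.num_ne_zero.2 hr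
  have key : ∀ n : ℕ, (p : ℤ) ^ n ∣ r.num := by
    intro n
    obtain ⟨y, hy, hry⟩ := h n
    have h1 : r.num * y.den = (p : ℤ) ^ n * (y.num * r.den) := by
      have h2 : (r.num : ℚ) * y.den = (p : ℚ) ^ n * (y.num * r.den) := by
        have h3 : (r.num : ℚ) = r * r.den := (Rat.mul_den_eq_num r).symm
        have h4 : (y.num : ℚ) = y * y.den := (Rat.mul_den_eq_num y).symm
        rw [h3, h4, hry]
        ring
      exact_mod_cast h2
    have h2 : (p : ℤ) ^ n ∣ r.num * y.den := ⟨_, h1⟩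
    have h3 : IsCoprime ((p : ℤ) ^ n) (y.den : ℤ) := by
      apply IsCoprime.pow_left
      rw [Nat.isCoprime_iff_coprime]
      exact (Nat.Prime.coprime_iff_not_dvd hp).2 hy
    exact h3.dvd_of_dvd_mul_right h2
  have h1 := Int.natAbs_dvd_natAbs.2 (key (r.num.natAbs))
  rw [Int.natAbs_pow, Int.natAbs_natCast] at h1
  have h2 := Nat.le_of_dvd (Int.natAbs_pos.2 hnum) h1
  have h3 : r.num.natAbs < p ^ r.num.natAbs := Nat.lt_pow_self hp.one_lt
  omega

/-- a bijection of the index set with the Cantor set -/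
lemma exists_zeta : ∃ ζ : W → (ℕ → Bool), Function.Bijective ζ := by
  have h1 : #W = #(ℕ → Bool) := by
    rw [mk_W]
    rw [← Cardinal.two_power_aleph0]; simp only [Cardinal.mk_pi, Cardinal.mk_bool,
      Cardinal.prod_const, Cardinal.mk_nat, Cardinal.lift_aleph0, Cardinal.lift_ofNat]
  obtain ⟨e⟩ := Cardinal.eq.1 h1
  exact ⟨e, e.bijective⟩

/-- the odd primes -/
noncomputable def pr (k : ℕ) : ℕ := Nat.nth Nat.Prime (k + 1)

lemma pr_prime (k : ℕ) : (pr k).Prime := Nat.prime_nth_prime (k + 1)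

lemma pr_injective : Function.Injective pr := by
  intro a b h
  have := Nat.nth_injective Nat.infinite_setOf_prime h
  omega

lemma pr_ne_two (k : ℕ) : pr k ≠ 2 := by
  intro h
  have h1 : Nat.nth Nat.Prime (k + 1) = Nat.nth Nat.Prime 0 := by
    rw [Nat.nth_prime_zero_eq_two]
    exact h
  have := Nat.nth_injective Nat.infinite_setOf_prime h1
  omega

/-- the types -/
def tau (i : W) : Set ℕ :=
  {p | ∃ n : ℕ, p = pr (2 * n + (if exists_zeta.choose i n then 1 else 0))}

lemma two_notMem_tau (i : W) : 2 ∉ tau i := by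
  rintro ⟨n, hn⟩
  exact pr_ne_two _ hn.symm

lemma exists_mem_tau {i j : W} (h : i ≠ j) : ∃ p ∈ tau i, p ∉ tau j ∧ p.Prime := by
  have h1 : exists_zeta.choose i ≠ exists_zeta.choose j := fun h' =>
    h (exists_zeta.choose_spec.1 h')
  obtain ⟨n, hn⟩ : ∃ n, exists_zeta.choose i n ≠ exists_zeta.choose j n := by
    by_contra hcon
    push Not at hcon
    exact h1 (funext hcon)
  refine ⟨_, ⟨n, rfl⟩, ?_, pr_prime _⟩
  rintro ⟨m, hm⟩
  have h2 := pr_injective hm
  generalize exists_zeta.choose i = x at h2 hn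
  generalize exists_zeta.choose j = y at h2 hn
  have h3 : n = m := by
    split_ifs at h2 <;> omega
  subst h3
  apply hn
  by_cases h4 : x n = true <;> by_cases h5 : y n = true
  · rw [h4, h5]
  · rw [if_pos h4, if_neg h5] at h2; omega
  · rw [if_neg h4, if_pos h5] at h2; omega
  · rw [Bool.not_eq_true] at h4 h5
    rw [h4, h5]

instance : Infinite W := by
  rw [Cardinal.infinite_iff, mk_W]
  exact Cardinal.aleph0_le_continuum

/-- the distinguished index -/
noncomputable def i0 : W := Classical.arbitrary W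

/-- the functional -/
noncomputable def lam : (W →₀ ℚ) →ₗ[ℚ] ℚ :=
  (2 : ℚ) • Finsupp.lapply i0 - Finsupp.linearCombination ℚ (fun _ => (1 : ℚ))

open Classical in
lemma lam_single (i : W) (r : ℚ) : lam (Finsupp.single i r) = if i = i0 then r else -r := by
  unfold lam
  rw [LinearMap.sub_apply, LinearMap.smul_apply, Finsupp.lapply_apply,
    Finsupp.linearCombination_single, smul_eq_mul, smul_eq_mul, mul_one]
  by_cases h : i = i0
  · subst h
    rw [Finsupp.single_eq_same, if_pos rfl]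
    ring
  · rw [Finsupp.single_eq_of_ne (Ne.symm h), if_neg h]
    ring

/-- the rigid group, as a subgroup of a rational vector space -/
noncomputable def RG : AddSubgroup (W →₀ ℚ) where
  carrier := {x | (∀ i, ∀ p (hp : p.Prime), p ≠ 2 → p ∉ tau i → x i ∈ Loc p hp) ∧
    lam x ∈ Loc 2 Nat.prime_two}
  zero_mem' := by
    refine ⟨fun i p hp _ _ => ?_, ?_⟩
    · rw [Finsupp.zero_apply]; exact zero_mem _
    · rw [map_zero]; exact zero_mem _
  add_mem' := by
    rintro x y ⟨hx1, hx2⟩ ⟨hy1, hy2⟩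
    refine ⟨fun i p hp h1 h2 => ?_, ?_⟩
    · rw [Finsupp.add_apply]; exact add_mem (hx1 i p hp h1 h2) (hy1 i p hp h1 h2)
    · rw [map_add]; exact add_mem hx2 hy2
  neg_mem' := by
    rintro x ⟨hx1, hx2⟩
    refine ⟨fun i p hp h1 h2 => ?_, ?_⟩
    · rw [Finsupp.neg_apply]; exact neg_mem (hx1 i p hp h1 h2)
    · rw [map_neg]; exact neg_mem hx2

lemma one_mem_Loc {p : ℕ} (hp : p.Prime) : (1 : ℚ) ∈ Loc p hp := by
  rw [mem_Loc, Rat.den_one, Nat.dvd_one]
  exact hp.one_lt.ne'

/-- inverse powers of a prime are integral at other primes -/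
lemma inv_pow_mem_Loc {p l : ℕ} (hp : p.Prime) (hl : l.Prime) (h : l ≠ p) (n : ℕ) :
    ((p : ℚ) ^ n)⁻¹ ∈ Loc l hl := by
  rw [mem_Loc]
  intro hd
  have h1 : ((p : ℚ) ^ n)⁻¹.den ∣ p ^ n := by
    have h2 : ((p : ℚ) ^ n)⁻¹ = (1 : ℤ) / ((p ^ n : ℕ) : ℤ) := by
      push_cast
      rw [one_div]
    rw [h2]
    have := Rat.den_dvd 1 ((p ^ n : ℕ) : ℤ)
    exact_mod_cast this
  have h2 : l ∣ p := hl.dvd_of_dvd_pow (hd.trans h1)
  exact h ((Nat.prime_dvd_prime_iff_eq hl hp).1 h2)

/-- divided unit vectors -/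
lemma single_mem {i : W} {p : ℕ} (hp : p ∈ tau i) (hpp : p.Prime) (n : ℕ) :
    (Finsupp.single i ((p : ℚ) ^ n)⁻¹ : W →₀ ℚ) ∈ RG := by
  classical
  have hp2 : p ≠ 2 := fun h => two_notMem_tau i (h ▸ hp)
  refine ⟨fun j l hl hl2 hlj => ?_, ?_⟩
  · by_cases hij : j = i
    · subst hij
      rw [Finsupp.single_eq_same]
      apply inv_pow_mem_Loc hpp hl
      rintro rfl
      exact hlj hp
    · rw [Finsupp.single_eq_of_ne hij]
      exact zero_mem _
  · rw [lam_single]
    have h1 := inv_pow_mem_Loc hpp Nat.prime_two (Ne.symm hp2) n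
    split_ifs
    · exact h1
    · exact neg_mem h1

lemma ei_mem (i : W) : (Finsupp.single i 1 : W →₀ ℚ) ∈ RG := by
  classical
  refine ⟨fun j l hl hl2 hlj => ?_, ?_⟩
  · by_cases hij : j = i
    · subst hij
      rw [Finsupp.single_eq_same]
      exact one_mem_Loc hl
    · rw [Finsupp.single_eq_of_ne hij]
      exact zero_mem _
  · rw [lam_single]
    split_ifs
    · exact one_mem_Loc _
    · exact neg_mem (one_mem_Loc _)

/-- divided sums -/
lemma pair_mem {i : W} (hi : i ≠ i0) (n : ℕ) :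
    (Finsupp.single i ((2 : ℚ) ^ n)⁻¹ + Finsupp.single i0 ((2 : ℚ) ^ n)⁻¹ : W →₀ ℚ) ∈ RG := by
  classical
  refine ⟨fun j l hl hl2 hlj => ?_, ?_⟩
  · have h1 := inv_pow_mem_Loc Nat.prime_two hl hl2 n
    rw [Nat.cast_ofNat] at h1
    rw [Finsupp.add_apply]
    refine add_mem ?_ ?_
    · by_cases h : j = i
      · subst h; rw [Finsupp.single_eq_same]; exact h1
      · rw [Finsupp.single_eq_of_ne h]; exact zero_mem _
    · by_cases h : j = i0
      · subst h; rw [Finsupp.single_eq_same]; exact h1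
      · rw [Finsupp.single_eq_of_ne h]; exact zero_mem _
  · rw [map_add, lam_single, lam_single, if_neg hi, if_pos rfl, neg_add_cancel]
    exact zero_mem _

/-- the group as a type -/
abbrev R : Type := RG

/-- unit vectors in the group -/
noncomputable def er (i : W) : R := ⟨Finsupp.single i 1, ei_mem i⟩

/-- endomorphisms are multiplications by rationals -/
theorem endo_eq (φ : R →+ R) : ∃ c : ℚ, ∀ x : R, ((φ x : R) : W →₀ ℚ) = c • (x : W →₀ ℚ) := by
  classical
  -- the images of the unit vectors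
  have h1 : ∀ i j, j ≠ i → ((φ (er i) : R) : W →₀ ℚ) j = 0 := by
    intro i j hji
    obtain ⟨p, hp, hpj, hpp⟩ := exists_mem_tau (Ne.symm hji)
    apply eq_zero_of_divisible hpp
    intro n
    set y : R := ⟨_, single_mem hp hpp n⟩ with hy
    have hp2 : p ≠ 2 := fun h => two_notMem_tau i (h ▸ hp)
    refine ⟨((φ y : R) : W →₀ ℚ) j, (φ y).2.1 j p hpp hp2 hpj, ?_⟩
    have h2 : er i = (p ^ n) • y := by
      apply Subtype.ext
      change (Finsupp.single i (1 : ℚ) : W →₀ ℚ) = (p ^ n) • (Finsupp.single i ((p : ℚ) ^ n)⁻¹)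
      rw [Finsupp.smul_single, nsmul_eq_mul]
      congr 1
      push_cast
      rw [mul_inv_cancel₀]
      exact pow_ne_zero _ (by exact_mod_cast hpp.ne_zero)
    rw [h2, map_nsmul, AddSubgroup.coe_nsmul, Finsupp.smul_apply, nsmul_eq_mul]
    push_cast
    rfl
  let c : W → ℚ := fun i => ((φ (er i) : R) : W →₀ ℚ) i
  have h2 : ∀ i, ((φ (er i) : R) : W →₀ ℚ) = Finsupp.single i (c i) := by
    intro i
    ext j
    by_cases hji : j = i
    · subst hji
      rw [Finsupp.single_eq_same]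
    · rw [Finsupp.single_eq_of_ne hji]
      exact h1 i j hji
  -- all multipliers are equal
  have h3 : ∀ i, c i = c i0 := by
    intro i
    by_cases hi : i = i0
    · rw [hi]
    have h4 : c i0 - c i = 0 := by
      apply eq_zero_of_divisible Nat.prime_two
      intro n
      set y : R := ⟨_, pair_mem hi n⟩ with hy
      refine ⟨lam ((φ y : R) : W →₀ ℚ), (φ y).2.2, ?_⟩
      have h5 : er i + er i0 = (2 ^ n) • y := by
        apply Subtype.ext
        change (Finsupp.single i (1 : ℚ) + Finsupp.single i0 (1 : ℚ) : W →₀ ℚ) =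
          (2 ^ n) • (Finsupp.single i ((2 : ℚ) ^ n)⁻¹ + Finsupp.single i0 ((2 : ℚ) ^ n)⁻¹)
        rw [smul_add, Finsupp.smul_single, Finsupp.smul_single, nsmul_eq_mul]
        have h6 : (((2 ^ n : ℕ) : ℚ)) * ((2 : ℚ) ^ n)⁻¹ = 1 := by
          push_cast
          rw [mul_inv_cancel₀]
          positivity
        rw [h6]
      have h6 : ((φ (er i + er i0) : R) : W →₀ ℚ) = Finsupp.single i (c i) +
          Finsupp.single i0 (c i0) := by
        rw [map_add, AddSubgroup.coe_add, h2, h2]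
      have h7 : lam ((φ (er i + er i0) : R) : W →₀ ℚ) = c i0 - c i := by
        rw [h6, map_add, lam_single, lam_single, if_neg hi, if_pos rfl]
        ring
      rw [← h7, h5, map_nsmul, AddSubgroup.coe_nsmul, map_nsmul, nsmul_eq_mul]
      push_cast
      rfl
    linarith
  refine ⟨c i0, fun x => ?_⟩
  -- a common denominator
  obtain ⟨N, hN, a, ha⟩ : ∃ N : ℕ, N ≠ 0 ∧ ∃ a : W → ℤ, ∀ i, (N : ℚ) * (x : W →₀ ℚ) i = a i := by
    refine ⟨∏ i ∈ (x : W →₀ ℚ).support, ((x : W →₀ ℚ) i).den, ?_, ?_⟩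
    · exact Finset.prod_ne_zero_iff.2 fun i _ => ((x : W →₀ ℚ) i).den_nz
    · have : ∀ i, ∃ a : ℤ, ((∏ i ∈ (x : W →₀ ℚ).support, ((x : W →₀ ℚ) i).den : ℕ) : ℚ) *
          (x : W →₀ ℚ) i = a := by
        intro i
        by_cases hi : i ∈ (x : W →₀ ℚ).support
        · rw [← Finset.mul_prod_erase _ _ hi]
          refine ⟨(∏ i ∈ (x : W →₀ ℚ).support.erase i, ((x : W →₀ ℚ) i).den : ℕ) *
            ((x : W →₀ ℚ) i).num, ?_⟩
          have h4 : (((x : W →₀ ℚ) i).num : ℚ) = (x : W →₀ ℚ) i * ((x : W →₀ ℚ) i).den :=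
            (Rat.mul_den_eq_num _).symm
          rw [Nat.cast_mul]
          push_cast
          rw [h4]
          ring
        · rw [Finsupp.notMem_support_iff.1 hi]
          exact ⟨0, by simp⟩
      choose a ha using this
      exact ⟨a, ha⟩
  have h4 : N • x = ∑ i ∈ (x : W →₀ ℚ).support, a i • er i := by
    apply Subtype.ext
    rw [AddSubgroup.coe_nsmul, AddSubgroup.val_finset_sum]
    ext j
    rw [Finsupp.smul_apply, Finsupp.finset_sum_apply, nsmul_eq_mul, ha j]
    by_cases hj : j ∈ (x : W →₀ ℚ).support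
    · rw [Finset.sum_eq_single j]
      · change _ = (a j • (Finsupp.single j (1 : ℚ) : W →₀ ℚ)) j
        rw [Finsupp.smul_apply, Finsupp.single_eq_same]
        simp
      · intro i _ hij
        change (a i • (Finsupp.single i (1 : ℚ) : W →₀ ℚ)) j = 0
        rw [Finsupp.smul_apply, Finsupp.single_eq_of_ne (Ne.symm hij), smul_zero]
      · intro h; exact absurd hj h
    · rw [Finset.sum_eq_zero]
      · rw [← ha j, Finsupp.notMem_support_iff.1 hj, mul_zero]
      · intro i hi
        change (a i • (Finsupp.single i (1 : ℚ) : W →₀ ℚ)) j = 0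
        have hij : j ≠ i := by rintro rfl; exact hj hi
        rw [Finsupp.smul_apply, Finsupp.single_eq_of_ne hij, smul_zero]
  have h5 : ((φ (N • x) : R) : W →₀ ℚ) = c i0 • ((N • x : R) : W →₀ ℚ) := by
    rw [h4, map_sum, AddSubgroup.val_finset_sum, AddSubgroup.val_finset_sum, Finset.smul_sum]
    refine Finset.sum_congr rfl fun i _ => ?_
    rw [map_zsmul, AddSubgroup.coe_zsmul, AddSubgroup.coe_zsmul, h2, h3]
    change a i • (Finsupp.single i (c i0) : W →₀ ℚ) =
      c i0 • a i • (Finsupp.single i (1 : ℚ) : W →₀ ℚ)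
    rw [Finsupp.smul_single, Finsupp.smul_single, Finsupp.smul_single]
    congr 1
    simp only [zsmul_eq_mul, smul_eq_mul]
    ring
  rw [map_nsmul, AddSubgroup.coe_nsmul, AddSubgroup.coe_nsmul] at h5
  ext j
  have h6 := DFunLike.congr_fun h5 j
  simp only [Finsupp.smul_apply, nsmul_eq_mul, smul_eq_mul] at h6 ⊢
  have hN' : (N : ℚ) ≠ 0 := by exact_mod_cast hN
  have h7 : (N : ℚ) * ((φ x : R) : W →₀ ℚ) j = (N : ℚ) * (c i0 * (x : W →₀ ℚ) j) := by
    rw [h6]; ring
  exact mul_left_cancel₀ hN' h7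

/-- multipliers of endomorphisms are integers -/
lemma den_eq_one {c : ℚ} (φ : R →+ R)
    (h : ∀ x : R, ((φ x : R) : W →₀ ℚ) = c • (x : W →₀ ℚ)) : c.den = 1 := by
  classical
  by_contra hne
  obtain ⟨p, hp, hpd⟩ := Nat.exists_prime_and_dvd hne
  have hc : ∀ i, ((φ (er i) : R) : W →₀ ℚ) = Finsupp.single i c := by
    intro i
    rw [h]
    change c • (Finsupp.single i (1 : ℚ) : W →₀ ℚ) = _
    rw [Finsupp.smul_single, smul_eq_mul, mul_one]
  by_cases hp2 : p = 2
  · subst hp2
    have h1 := (φ (er i0)).2.2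
    rw [hc, lam_single, if_pos rfl] at h1
    exact h1 hpd
  · -- an index whose type does not contain `p`
    obtain ⟨i, hi⟩ : ∃ i, p ∉ tau i := by
      by_cases h0 : p ∈ tau i0
      · obtain ⟨i, hi⟩ := exists_zeta.choose_spec.2 fun m => !(exists_zeta.choose i0 m)
        refine ⟨i, ?_⟩
        obtain ⟨n, hn⟩ := h0
        rintro ⟨m, hm⟩
        rw [hi] at hm
        rw [hn] at hm
        have h3 := pr_injective hm
        generalize exists_zeta.choose i0 = y at h3
        have h4 : n = m := by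
          split_ifs at h3 <;> omega
        subst h4
        cases hy : y n <;> simp [hy] at h3
      · exact ⟨i0, h0⟩
    have h1 := (φ (er i)).2.1 i p hp hp2 hi
    rw [hc, Finsupp.single_eq_same] at h1
    exact h1 hpd

/-- **Rigidity**: the automorphisms are `±1` -/
theorem auto_eq (φ : R ≃+ R) : (∀ x, φ x = x) ∨ (∀ x, φ x = -x) := by
  obtain ⟨c, hc⟩ := endo_eq φ.toAddMonoidHom
  obtain ⟨d, hd⟩ := endo_eq φ.symm.toAddMonoidHom
  have hc1 := den_eq_one _ hc
  have hd1 := den_eq_one _ hd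
  have hcd : c * d = 1 := by
    have h1 : ((φ (φ.symm (er i0)) : R) : W →₀ ℚ) = c • ((φ.symm (er i0) : R) : W →₀ ℚ) := hc _
    have h2 : ((φ.symm (er i0) : R) : W →₀ ℚ) = d • ((er i0 : R) : W →₀ ℚ) := hd _
    rw [h2, AddEquiv.apply_symm_apply] at h1
    have h3 := DFunLike.congr_fun h1 i0
    change (Finsupp.single i0 (1 : ℚ) : W →₀ ℚ) i0 =
      (c • d • (Finsupp.single i0 (1 : ℚ) : W →₀ ℚ)) i0 at h3
    rw [Finsupp.smul_apply, Finsupp.smul_apply, Finsupp.single_eq_same, smul_eq_mul, smul_eq_mul,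
      mul_one] at h3
    exact h3.symm
  have hcn : (c.num : ℚ) = c := by
    have := Rat.num_div_den c
    rw [hc1] at this
    simpa using this
  have hdn : (d.num : ℚ) = d := by
    have := Rat.num_div_den d
    rw [hd1] at this
    simpa using this
  have h1 : c.num * d.num = 1 := by
    rw [← hcn, ← hdn] at hcd
    exact_mod_cast hcd
  rcases Int.eq_one_or_neg_one_of_mul_eq_one h1 with h | h
  · left
    intro x
    apply Subtype.ext
    have h2 := hc x
    rw [← hcn, h] at h2
    change ((φ x : R) : W →₀ ℚ) = _ at h2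
    rw [h2]
    simp
  · right
    intro x
    apply Subtype.ext
    have h2 := hc x
    rw [← hcn, h] at h2
    change ((φ x : R) : W →₀ ℚ) = _ at h2
    rw [h2]
    simp

end Pool.Agent.V11281.Psc
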